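import Pool.Agent.H18.Ehrhart.Limit

/-!
# Ehrhart's volume conjecture

For every `d`, every lattice `A ℤ^d` in `ℝ^d` and every convex body `K` with centroid at the
origin whose interior contains no lattice point other than the origin, the volume of `K` is at
most `(d+1)^d / d!` times the determinant of the lattice.
-/

namespace Pool.Agent.Results.MP_4c844b_co.EhrhartVolume

open MeasureTheory Matrix Pool.Agent.H18.Ehrhart

noncomputable section

/-- The lattice `A ℤ^d` in `ℝ^d` (`A` is an invertible matrix below). -/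
def lattice {d : ℕ} (A : Matrix (Fin d) (Fin d) ℝ) : Set (Fin d → ℝ) :=
  {x | ∃ z : Fin d → ℤ, x = A *ᵥ (fun i => (z i : ℝ))}

/-- The centroid `(1 / V(K)) ∫_K x dx` of `K`. -/
def centroid {d : ℕ} (K : Set (Fin d → ℝ)) : Fin d → ℝ :=
  (volume K).toReal⁻¹ • ∫ x in K, x

theorem integral_eq_zero_of_centroid {d : ℕ} {K : Set (Fin d → ℝ)} (hc : IsCompact K)
    (hne : (interior K).Nonempty) (h : centroid K = 0) : ∫ x in K, x = 0 := by
  rw [centroid, smul_eq_zero] at h
  rcases h with h | h
  · exfalso
    obtain ⟨x, hx⟩ := hne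
    have h1 : 0 < (volume K).toReal := ENNReal.toReal_pos
      (Measure.measure_pos_of_mem_nhds volume (mem_interior_iff_mem_nhds.1 hx)).ne'
      hc.measure_lt_top.ne
    exact (inv_pos.2 h1).ne' h
  · exact h

theorem ehrhart_lattice {d : ℕ} (A : Matrix (Fin d) (Fin d) ℝ) (hA : A.det ≠ 0)
    {K : Set (Fin d → ℝ)} (hK : Convex ℝ K) (hc : IsCompact K)
    (hL : interior K ∩ lattice A = {0}) (hcent : ∫ x in K, x = 0) :
    volume K ≤ ENNReal.ofReal (((d : ℝ) + 1) ^ d / d.factorial * |A.det|) := by
  classical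
  have hAu : IsUnit A.det := isUnit_iff_ne_zero.2 hA
  -- the linear homeomorphism given by `A`
  let f : (Fin d → ℝ) ≃ₗ[ℝ] (Fin d → ℝ) := A.toLinearEquiv' (by
    exact Matrix.invertibleOfIsUnitDet A hAu)
  have hf : ∀ x, f x = A *ᵥ x := fun x => rfl
  let g : (Fin d → ℝ) ≃L[ℝ] (Fin d → ℝ) := f.toContinuousLinearEquiv
  have hg : ∀ x, g x = A *ᵥ x := fun x => rfl
  let K' : Set (Fin d → ℝ) := g ⁻¹' K
  have hK' : Convex ℝ K' := hK.linear_preimage g.toLinearMap
  have hc' : IsCompact K' := g.toHomeomorph.isCompact_preimage.2 hc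
  have hint : interior K' = g ⁻¹' (interior K) := (g.toHomeomorph.preimage_interior K).symm
  have h0 : (0 : Fin d → ℝ) ∈ interior K := by
    have : (0 : Fin d → ℝ) ∈ interior K ∩ lattice A := by rw [hL]; rfl
    exact this.1
  have h0' : (0 : Fin d → ℝ) ∈ interior K' := by
    rw [hint, Set.mem_preimage, map_zero]; exact h0
  have hL' : ∀ m : Fin d → ℤ, (fun i => (m i : ℝ)) ∈ interior K' → m = 0 := by
    intro m hm
    rw [hint, Set.mem_preimage, hg] at hm
    have h1 : A *ᵥ (fun i => (m i : ℝ)) ∈ interior K ∩ lattice A := ⟨hm, m, rfl⟩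
    rw [hL, Set.mem_singleton_iff, ← hg, map_eq_zero_iff g g.injective] at h1
    funext i
    have h2 := congrFun h1 i
    simp only [Pi.zero_apply] at h2 ⊢
    exact_mod_cast h2
  have hmap : Measure.map g volume = ENNReal.ofReal |A.det⁻¹| • (volume : Measure (Fin d → ℝ)) := by
    have := Real.map_matrix_volume_pi_eq_smul_volume_pi hA
    exact this
  have hmeas : Measurable g := g.continuous.measurable
  have hvol : volume K' = ENNReal.ofReal |A.det⁻¹| * volume K := by
    have h1 : Measure.map g volume K = volume K' := Measure.map_apply hmeas hc.measurableSet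
    rw [← h1, hmap]
    rfl
  have hcent' : ∫ x in K', x = 0 := by
    have hme : MeasurableEmbedding g := g.toHomeomorph.measurableEmbedding
    have h1 : ∫ y in K, g.symm y ∂(Measure.map g volume) = ∫ x in K', g.symm (g x) :=
      hme.setIntegral_map (fun y => g.symm y) K
    have h2 : ∫ y in K, g.symm y ∂(Measure.map g volume) = 0 := by
      rw [hmap, Measure.restrict_smul, integral_smul_measure]
      have h3 : ∫ y in K, g.symm y = g.symm (∫ y in K, y) := by
        have hi : Integrable (fun x : Fin d → ℝ => x) (volume.restrict K) :=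
          (continuous_id.continuousOn.integrableOn_compact hc)
        exact (g.symm : (Fin d → ℝ) →L[ℝ] (Fin d → ℝ)).integral_comp_comm hi
      rw [h3, hcent, map_zero, smul_zero]
    rw [h1] at h2
    simpa using h2
  have hmain := ehrhart_int hK' hc' h0' hL' hcent'
  have habs : 0 < |A.det| := abs_pos.2 hA
  have h4 : volume K = ENNReal.ofReal |A.det| * volume K' := by
    rw [hvol, ← mul_assoc, ← ENNReal.ofReal_mul (abs_nonneg _), abs_inv,
      mul_inv_cancel₀ habs.ne', ENNReal.ofReal_one, one_mul]
  have h5 : volume K' ≤ ENNReal.ofReal (((d : ℝ) + 1) ^ d / d.factorial) := by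
    rw [← ENNReal.ofReal_toReal hc'.measure_lt_top.ne]
    exact ENNReal.ofReal_le_ofReal hmain
  rw [h4, mul_comm, ENNReal.ofReal_mul (by positivity)]
  gcongr

/-- **Ehrhart's volume conjecture**: all dimensions, all lattices, all convex bodies. -/
theorem result (d : ℕ) (A : Matrix (Fin d) (Fin d) ℝ) (hA : A.det ≠ 0)
    (K : Set (Fin d → ℝ)) (hK : Convex ℝ K) (hc : IsCompact K) (hne : (interior K).Nonempty)
    (hz : centroid K = 0) (hL : interior K ∩ lattice A = {0}) :
    volume K ≤ ENNReal.ofReal (((d : ℝ) + 1) ^ d / d.factorial * |A.det|) :=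
  ehrhart_lattice A hA hK hc hL (integral_eq_zero_of_centroid hc hne hz)

end

end Pool.Agent.Results.MP_4c844b_co.EhrhartVolume
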